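import Pool.Agent.H91.LA.Nbxc
import Pool.Agent.H71.AJX.Nfx

/-!
# Two closed labels are near on the natural boxes of given charts

The charts of a chain of coordinates are given; `nbx_lx`: two closed labels over a part of the chain
differ by their errors only, up to `2 ^ (ε J)`, on the natural boxes of the charts over the window.
-/

set_option autoImplicit false

namespace Pool.FLN19

open Finset Real MvPolynomial
open Pool.Agent.H49.Ent Pool.Agent.H32.Dense Pool.STK Pool.KA Pool.KSAT Pool.K2S Pool.PB Pool.GEN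
open Pool.S6C Pool.RCD Pool.LA91
open Pool.GRD (LbP Pb_mono_pos)
open Pool.BFL (Pb)
open Pool.UNJ (ceI)
open Pool.LIV (Pb_mono25 Pb_or25 Pb_ex25)
open Pool.GRW (Cm Cg_le_Cm one_le_Cm Cm_mono xr xr_near tmc_bas bas_part TmC.wn)
open Pool.AJX (LbX)

/-- **Two closed labels are near on the natural boxes of given charts.** -/
theorem nbx_lx (K r : ℕ) : ∃ C₁ : ℝ, 1 ≤ C₁ ∧ ∀ {m : ℕ} {S : PCl m} {C₀ : ℝ} (_ : TmC S C₀)
    {c : ℕ → Fin m} {w u₁ : ℝ} {s rd : ℕ → ℝ} (_ : Chn S c 0 r w w u₁ s rd)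
    {E rd' p : ℕ → ℝ} {e ε χ : ℝ} (_ : 0 ≤ e) (_ : 0 < ε) (_ : 0 < χ) (_ : w + χ ≤ 1) (_ : ε ≤ χ)
    (_ : ∀ i < r, 0 ≤ E i ∧ p i + E i + χ ≤ 1 ∧ 0 ≤ rd' i ∧ rd' i + e ≤ 1)
    (_ : ∀ i < r, 0 ≤ p i - e ∧ s i - (p i - e) ≤ ε / C₁) {η : ℝ} (_ : 0 < η) (_ : η ≤ 1),
    Bas S (fun J F A => ∀ (V : Type) (z : PtT F → V) (z' : LnT F → V)
      (g : V → ℕ → MvPolynomial (Option (Fin m)) ℝ), LbX F c 0 r K e E w rd' p A z z' g →
      ∀ n ≤ r, ∀ (k : Fin m) (P₁ P₂ : ℕ) (V₁ V₂ : Type)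
        (z₁ : PtT F → V₁) (z₁' : LnT F → V₁) (G₁ : V₁ → MvPolynomial (Option (Fin m)) ℝ)
        (z₂ : PtT F → V₂) (z₂' : LnT F → V₂) (G₂ : V₂ → MvPolynomial (Option (Fin m)) ℝ),
        LbP F ((range n).image c) k K J ⌊w * J⌋₊ P₁ A z₁ z₁' G₁ →
        LbP F ((range n).image c) k K J ⌊w * J⌋₊ P₂ A z₂ z₂' G₂ →
        Pb (Pool.Agent.H49.Ent.cond F.p A True) (fun ω =>
          ¬ ∀ x, NB F c 0 n ⌊w * J⌋₊ (fun i => 2 / 2 ^ ⌊(p i - e) * J⌋₊)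
              (g (z' (slam F ⌊w * J⌋₊ ω))) ω x →
            |eval x (G₁ (z₁' (slam F ⌊w * J⌋₊ ω)) - G₂ (z₂' (slam F ⌊w * J⌋₊ ω)))| ≤
              2 ^ (ε * J) * (1 / 2 ^ P₁ + 1 / 2 ^ P₂)) ≤ η) := by
  classical
  have hl0 : 0 < Real.log 2 := Real.log_pos one_lt_two
  have hlog0 : 0 < Real.log 2 := hl0
  have hl1 : Real.log 2 ≤ 1 := by
    have := Real.log_two_lt_d9
    linarith
  have hl2 : 1 / 2 ≤ Real.log 2 := by
    have := Real.log_two_gt_d9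
    linarith
  have hr0 : (0 : ℝ) ≤ r := Nat.cast_nonneg r
  obtain ⟨Q, hQ⟩ : ∃ Q : ℝ, Q = 8 ^ r / (1 / 2) := ⟨_, rfl⟩
  have hQ0 : 0 < Q := by rw [hQ]; positivity
  have hQ1 : 1 ≤ Q := by
    have h1 : (1 : ℝ) ≤ 8 ^ r := one_le_pow₀ (by norm_num)
    rw [hQ, le_div_iff₀ (by norm_num)]
    linarith
  have hCm : 1 ≤ Cm (r + 1) K := one_le_Cm (r + 1) K
  have hCm0 : 0 < Cm (r + 1) K := by linarith
  obtain ⟨C₂, hC₂⟩ : ∃ C₂ : ℝ, C₂ = Cm (r + 1) K * Q := ⟨_, rfl⟩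
  have hC₂1 : 1 ≤ C₂ := by rw [hC₂]; exact one_le_mul_of_one_le_of_one_le hCm hQ1
  have hC₂0 : 0 < C₂ := by linarith
  obtain ⟨C₁, hC₁⟩ : ∃ C₁ : ℝ, C₁ = 64 * ((r + 1) * C₂) := ⟨_, rfl⟩
  have hrC : 1 ≤ ((r : ℝ) + 1) * C₂ := one_le_mul_of_one_le_of_one_le (by linarith) hC₂1
  have hC₁0 : 0 < C₁ := by rw [hC₁]; linarith
  refine ⟨C₁, by rw [hC₁]; linarith, ?_⟩
  intro m S C₀ htm c w u₁ s rd hch E rd' p e ε χ he hε hχ hwχ hεχ hnum hdef η hη hη1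
  obtain ⟨-, hc, hw0, -, -, hwu1, hu1, hs0, -, -, -, hpre, hful⟩ := hch
  -- the constants
  obtain ⟨γ₀, hγ₀⟩ : ∃ γ₀ : ℝ, γ₀ = ε * Real.log 2 / (8 * ((r : ℝ) + 1)) := ⟨_, rfl⟩
  have hγ0 : 0 < γ₀ := by rw [hγ₀]; positivity
  have hγe : (r + 1) * γ₀ = ε / 8 * Real.log 2 := by
    rw [hγ₀]
    field_simp
  have hγχ : γ₀ ≤ χ / 8 := by
    have h1 : γ₀ ≤ (r + 1) * γ₀ := le_mul_of_one_le_left hγ0.le (by linarith)
    have h2 : ε / 8 * Real.log 2 ≤ ε / 8 := mul_le_of_le_one_right (by positivity) hl1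
    linarith
  have hCε : C₂ * (ε / C₁) ≤ γ₀ / 4 := by
    have h1 : C₂ * (ε / C₁) * (64 * (r + 1)) = ε := by
      rw [hC₁]
      field_simp
    have h2 : γ₀ / 4 * (64 * (r + 1)) = 2 * ε * Real.log 2 := by
      have : γ₀ / 4 * (64 * (r + 1)) = 16 * ((r + 1) * γ₀) := by ring
      rw [this, hγe]
      ring
    have h3 : ε ≤ 2 * ε * Real.log 2 := by
      have := mul_le_mul_of_nonneg_left hl2 (show 0 ≤ 2 * ε by linarith)
      linarith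
    have h4 : C₂ * (ε / C₁) * (64 * ((r : ℝ) + 1)) ≤ γ₀ / 4 * (64 * (r + 1)) := by
      rw [h1, h2]
      exact h3
    exact le_of_mul_le_mul_right h4 (by positivity)
  obtain ⟨ρ, hρ⟩ : ∃ ρ : ℝ, ρ = γ₀ / (4 * C₂) := ⟨_, rfl⟩
  have hρ0 : 0 < ρ := by rw [hρ]; positivity
  have hρQ : C₂ * ρ = γ₀ / 4 := by
    rw [hρ, mul_div_assoc', div_eq_div_iff (by positivity) (by norm_num)]
    ring
  obtain ⟨d, hd⟩ : ∃ d : ℕ → ℝ, d = fun l => max (s l - (p l - e)) 0 := ⟨_, rfl⟩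
  have hd0 : ∀ l, 0 ≤ d l := fun l => by rw [hd]; exact le_max_right _ _
  have hdl : ∀ l, s l - (p l - e) ≤ d l := fun l => by rw [hd]; exact le_max_left _ _
  have hdC : ∀ l < r, C₂ * d l ≤ γ₀ / 4 := by
    intro l hl
    refine le_trans (mul_le_mul_of_nonneg_left ?_ hC₂0.le) hCε
    rw [hd]
    exact max_le (hdef l hl).2 (by positivity)
  obtain ⟨C, hC, hdif⟩ := dif_ball m K
  have hC0 : 0 < C := by linarith
  obtain ⟨κ, hκ⟩ : ∃ κ : ℝ, κ = min (ε / 2) (1 - u₁) := ⟨_, rfl⟩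
  have hκ0 : 0 < κ := by rw [hκ]; exact lt_min (by linarith) (by linarith)
  obtain ⟨ψ, hψ⟩ : ∃ ψ : ℝ, ψ = η / 2 * κ * Real.log 2 / (3 * C) := ⟨_, rfl⟩
  have hψ0 : 0 < ψ := by
    rw [hψ]
    positivity
  have hψ1 : C * (3 * ψ) / (η / 2) = κ * Real.log 2 := by
    rw [hψ]
    field_simp
  have hpreA : Bas S (fun J F A => ∀ n < r + 1,
      ∀ (V : Type) (z : PtT F → V) (z' : LnT F → V),
      (∀ ω, A ω → z (ptr F J ω) = z' (slam F ⌊w * J⌋₊ ω)) →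
      ((range n).image c).card * (((J - ⌊u₁ * J⌋₊ : ℕ) : ℝ) * Real.log 2) - ψ * J ≤
        CH (Pool.Agent.H49.Ent.cond F.p A True)
          (fun ω => ceI ((range n).image c) (fun _ => J) (F.x ω))
          (fun ω => (ceI ((range n).image c) (fun _ => ⌊u₁ * J⌋₊) (F.x ω),
            z' (slam F ⌊w * J⌋₊ ω), F.W ω))) := by
    refine Bas.all (r + 1) fun n hn => ?_
    exact (hpre n (Nat.zero_le _) (by omega) ψ hψ0).mono 0 fun J _ F A h => h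
  obtain ⟨J₁, hJ₁⟩ := exists_nat_ge ((m + 2) / (χ / 2))
  obtain ⟨J₂, hJ₂⟩ := exists_nat_ge (4 / χ)
  obtain ⟨J₃, hJ₃⟩ := exists_nat_ge (1 / ψ)
  obtain ⟨J₄, hJ₄⟩ := exists_nat_ge (24 * C₂ * (r + 1) / γ₀)
  refine Bas.mono (J₁ + J₂ + J₃ + J₄) ((bas_part ((hful ρ hρ0).and
    (TmC.wn htm w ρ hρ0)) (c := 2 / η) (by positivity)).and (hpreA.and
      (tmc_bas htm hψ0))) ?_
  rintro J hJ F A ⟨hpart, hprA, hA, hT⟩
  have hJ0 : (0 : ℝ) ≤ J := Nat.cast_nonneg J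
  have hJ' : (J₁ : ℝ) + J₂ + J₃ + J₄ ≤ J := by exact_mod_cast hJ
  have hn1 : (0 : ℝ) ≤ J₁ := Nat.cast_nonneg _
  have hn2 : (0 : ℝ) ≤ J₂ := Nat.cast_nonneg _
  have hn3 : (0 : ℝ) ≤ J₃ := Nat.cast_nonneg _
  have hn4 : (0 : ℝ) ≤ J₄ := Nat.cast_nonneg _
  have k1 : (m : ℝ) + 2 ≤ χ / 2 * J := by
    have : (m + 2) / (χ / 2) ≤ J := by linarith
    rw [div_le_iff₀ (by positivity)] at this
    linarith
  have k2 : 4 ≤ χ * J := by
    have : 4 / χ ≤ J := by linarith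
    rw [div_le_iff₀ hχ] at this
    linarith
  have k3 : 1 ≤ ψ * J := by
    have : 1 / ψ ≤ J := by linarith
    rw [div_le_iff₀ hψ0] at this
    linarith
  have k4 : 24 * C₂ * (r + 1) ≤ γ₀ * J := by
    have : 24 * C₂ * (r + 1) / γ₀ ≤ J := by linarith
    rw [div_le_iff₀ hγ0] at this
    linarith
  intro V z z' g hg n hn k P₁ P₂ V₁ V₂ z₁ z₁' G₁ z₂ z₂' G₂ h₁ h₂
  have hnR : (n : ℝ) ≤ r := by exact_mod_cast hn
  have hq := isLaw_cond F.isLaw hA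
  have h0 := hq.nonneg
  have hqA : ∀ ω, 0 < Pool.Agent.H49.Ent.cond F.p A True ω → A ω := fun ω hω => of_cond_pos hω
  -- the windows
  have hwf : ⌊w * J⌋₊ ≤ ⌊u₁ * J⌋₊ := Nat.floor_le_floor (mul_le_mul_of_nonneg_right hwu1 hJ0)
  have hu1J : ⌊u₁ * J⌋₊ ≤ J := floor_le hu1.le J
  have hwJ' : ⌊w * J⌋₊ + (J - ⌊u₁ * J⌋₊) ≤ J := by omega
  obtain ⟨y, hy⟩ : ∃ y : PtT F → V × (V₁ × V₂), y = fun a => (z a, (z₁ a, z₂ a)) := ⟨_, rfl⟩
  obtain ⟨y', hy'⟩ : ∃ y' : LnT F → V × (V₁ × V₂), y' = fun a => (z' a, (z₁' a, z₂' a)) :=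
    ⟨_, rfl⟩
  have hycl : ∀ l < n, ∀ ω, A ω → y (ptr F J ω) = y' (slam F ⌊w * J⌋₊ ω) := by
    intro l hl ω hω
    rw [hy, hy']
    show (z (ptr F J ω), (z₁ (ptr F J ω), z₂ (ptr F J ω))) = _
    rw [(hg l (Nat.zero_le _) (by omega)).cls ω hω, h₁.cls ω hω, h₂.cls ω hω]
  obtain ⟨D, hD⟩ : ∃ D : V × (V₁ × V₂) →
      MvPolynomial (Option (Fin m)) ℝ, D = fun v => G₁ v.2.1 - G₂ v.2.2 := ⟨_, rfl⟩
  have hDe : ∀ a, D (y' a) = G₁ (z₁' a) - G₂ (z₂' a) := fun a => by rw [hD, hy']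
  -- the ball
  obtain ⟨τ, hτ⟩ : ∃ τ : ℝ, τ = Real.exp (C * (ψ * J + ψ * J + 1) / (η / 2)) *
    (1 / 2 ^ P₁ + 1 / 2 ^ P₂) := ⟨_, rfl⟩
  have hτ0 : 0 < τ := by rw [hτ]; positivity
  have hexp : C * (ψ * J + ψ * J + 1) / (η / 2) ≤ κ * Real.log 2 * J := by
    rw [← hψ1]
    have e1 : C * (ψ * J + ψ * J + 1) ≤ C * (3 * ψ) * J := by nlinarith
    calc C * (ψ * J + ψ * J + 1) / (η / 2) ≤ C * (3 * ψ) * J / (η / 2) :=
          div_le_div_of_nonneg_right e1 (by linarith)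
      _ = _ := by ring
  have hdf := hdif J F _ ((range n).image c) k ⌊w * J⌋₊ ⌊u₁ * J⌋₊ (J - ⌊u₁ * J⌋₊) A J P₁ J P₂
    V₁ V₂ z₁ z₁' G₁ z₂ z₂' G₂ (ψ * J) (ψ * J) (η / 2) hq hqA hT hwJ'
    h₁ h₂ hwf (by positivity) (by positivity) (by linarith) (by linarith) (by
      rw [Nat.add_sub_cancel' hu1J]
      exact hprA n (by omega) (V₁ × V₂) (fun a => (z₁ a, z₂ a)) (fun a => (z₁' a, z₂' a))
        (fun ω hω => by rw [h₁.cls ω hω, h₂.cls ω hω])) (by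
      refine hexp.trans ?_
      rw [Nat.cast_sub hu1J]
      have e1 : ((⌊u₁ * J⌋₊ : ℕ) : ℝ) ≤ u₁ * J := Nat.floor_le (mul_nonneg (by linarith) hJ0)
      have e2 : κ ≤ 1 - u₁ := by rw [hκ]; exact min_le_right _ _
      have e3 : κ * J ≤ (1 - u₁) * J := mul_le_mul_of_nonneg_right e2 hJ0
      calc κ * Real.log 2 * J = κ * J * Real.log 2 := by ring
        _ ≤ (J - (⌊u₁ * J⌋₊ : ℕ)) * Real.log 2 :=
          mul_le_mul_of_nonneg_right (by linarith) hl0.le)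
  rw [← hτ] at hdf
  obtain ⟨good, hgood⟩ : ∃ good : F.Ω → Prop, good = fun ω => ∀ b : Option (Fin m) → ℝ,
    (∀ o, |b o - bt F ω o| ≤ 2 / 2 ^ ⌊u₁ * J⌋₊) →
      |eval b (G₁ (z₁' (slam F ⌊w * J⌋₊ ω)) - G₂ (z₂' (slam F ⌊w * J⌋₊ ω)))| ≤ τ := ⟨_, rfl⟩
  obtain ⟨box, hbox⟩ : ∃ box : F.Ω → Prop, box = fun ω =>
    ∀ x, NB F c 0 n ⌊w * J⌋₊ (fun i => 2 / 2 ^ ⌊(p i - e) * J⌋₊)
      (g (z' (slam F ⌊w * J⌋₊ ω))) ω x →
      |eval x (G₁ (z₁' (slam F ⌊w * J⌋₊ ω)) - G₂ (z₂' (slam F ⌊w * J⌋₊ ω)))| ≤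
        2 ^ (ε * J) * (1 / 2 ^ P₁ + 1 / 2 ^ P₂) := ⟨_, rfl⟩
  have hgd : Pb (Pool.Agent.H49.Ent.cond F.p A True) (fun ω => ¬ good ω) ≤ η / 2 := by
    rw [hgood]
    exact hdf
  suffices hsuff : Pb (Pool.Agent.H49.Ent.cond F.p A True) (fun ω => ¬ box ω) ≤ η by
    rw [hbox] at hsuff
    exact hsuff
  obtain ⟨R, hR⟩ : ∃ R : F.Ω → Prop, R = fun ω => A ω ∧ good ω ∧ ¬ box ω := ⟨_, rfl⟩
  have hRA : Sub R A := fun ω hω => by
    rw [hR] at hω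
    exact hω.1
  by_contra hcon
  push Not at hcon
  have hp1 : Pb (Pool.Agent.H49.Ent.cond F.p A True) (fun ω => ¬ box ω) ≤
      Pb (Pool.Agent.H49.Ent.cond F.p A True) (fun ω => ¬ good ω) +
        Pb (Pool.Agent.H49.Ent.cond F.p A True) R := by
    refine le_trans (Pb_mono25 h0 fun ω hω hn => ?_) (Pb_or25 h0 (fun ω => ¬ good ω) R)
    by_cases hg : good ω
    · right
      rw [hR]
      exact ⟨hqA ω hω, hg, hn⟩
    · left
      exact hg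
  have hp2 : Pb (Pool.Agent.H49.Ent.cond F.p A True) R = Pe F.p R / Pe F.p A := by
    rw [Pb_cond hA]
    congr 2
    funext ω
    exact propext ⟨fun h => h.2, fun h => ⟨hRA ω h, h⟩⟩
  have hp3 : η / 2 < Pe F.p R / Pe F.p A := by
    rw [← hp2]
    linarith
  have hp4 : Pe F.p A ≤ 2 / η * Pe F.p R := by
    rw [lt_div_iff₀ hA] at hp3
    rw [div_mul_eq_mul_div, le_div_iff₀ hη]
    linarith
  obtain ⟨hfR, hRp, htR⟩ := hpart R hRA hp4
  have hqR := isLaw_cond F.isLaw hRp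
  have hqRR : ∀ ω, 0 < Pool.Agent.H49.Ent.cond F.p R True ω → R ω := fun ω hω => of_cond_pos hω
  -- the length of the growth
  obtain ⟨L, hL⟩ : ∃ L, L = ⌊χ / 2 * (J : ℝ)⌋₊ := ⟨_, rfl⟩
  have hLle : (L : ℝ) ≤ χ / 2 * J := by
    rw [hL]
    exact Nat.floor_le (by positivity)
  have hLge : χ / 2 * J - 1 ≤ L := by
    rw [hL]
    have := Nat.lt_floor_add_one (χ / 2 * (J : ℝ))
    linarith
  have hχJ : 0 ≤ χ / 2 * (J : ℝ) := by positivity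
  have hwJf : ((⌊w * J⌋₊ : ℕ) : ℝ) ≤ w * J := Nat.floor_le (mul_nonneg hw0 hJ0)
  have hwL : ⌊w * (J : ℝ)⌋₊ + L ≤ J := by
    have h1 : ((⌊w * (J : ℝ)⌋₊ + L : ℕ) : ℝ) ≤ J := by
      push_cast
      have h2 := mul_le_mul_of_nonneg_right hwχ hJ0
      have h3 : (w + χ) * (J : ℝ) = w * J + χ / 2 * J + χ / 2 * J := by ring
      linarith
    exact_mod_cast h1
  obtain ⟨θ, hθ⟩ : ∃ θ : ℕ → ℝ, θ = fun l => (d l + ρ) * J + 1 := ⟨_, rfl⟩
  have hCmn : Cm (n + 1) K ≤ Cm (r + 1) K := Cm_left (by omega)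
  have hCn0 : 0 < Cm (n + 1) K := zero_lt_one.trans_le (one_le_Cm _ _)
  have hQn : (8 : ℝ) ^ n / (1 / 2) ≤ Q := by
    rw [hQ]
    exact div_le_div_of_nonneg_right (pow_le_pow_right₀ (by norm_num) hn) (by norm_num)
  have hlossT : Cm (n + 1) K * (ρ * J + 2 * n + 1) * (8 ^ n / (1 / 2)) ≤ γ₀ * J := by
    have e0 : ρ * J + 2 * n + 1 ≤ ρ * J + 2 * ((r : ℝ) + 1) := by linarith
    have h9 : Cm (n + 1) K * (ρ * J + 2 * n + 1) * (8 ^ n / (1 / 2)) ≤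
        Cm (r + 1) K * (ρ * J + 2 * ((r : ℝ) + 1)) * Q :=
      mul_le_mul (mul_le_mul hCmn e0 (by positivity) hCm0.le) hQn (by positivity)
        (mul_nonneg hCm0.le (by positivity))
    refine h9.trans ?_
    have h5 := mul_le_mul_of_nonneg_right hρQ.le hJ0
    have e1 : Cm (r + 1) K * (ρ * J + 2 * ((r : ℝ) + 1)) * Q =
      C₂ * ρ * J + 2 * C₂ * (r + 1) := by rw [hC₂]; ring
    rw [e1]
    have : 0 ≤ γ₀ * J := by positivity
    have e2 : 0 ≤ C₂ * (r + 1) := by positivity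
    linarith
  have key := nbx_fam (r₀ := 0) (r := n) (Nat.zero_le _) (F := F) (A := R) hqR hqRR (c := c)
    (fun a ha b hb hab => hc (Set.mem_Iio.2 (lt_of_lt_of_le ha hn))
      (Set.mem_Iio.2 (lt_of_lt_of_le hb hn)) hab) (K := fun _ => K)
    (e := fun i => ⌊(E i + e) * (J : ℝ)⌋₊) (ρ := fun i => ⌊(rd' i + e) * (J : ℝ)⌋₊)
    (g := fun i => ⌊(p i - e) * (J : ℝ)⌋₊) (M := fun _ => K)
    (w := ⌊w * (J : ℝ)⌋₊) (u := ⌊w * (J : ℝ)⌋₊) (L := L) (KD := K) (Mt := K) (z := y) (z' := y')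
    (G := fun v => g v.1) (D := D) ?_ ?_ ?_ ?_ le_rfl hwL ?_ (fun _ _ _ _ _ => le_rfl)
    (fun _ => le_rfl) (fun _ _ _ => le_rfl) le_rfl
    (θ := θ) (fun l => by rw [hθ]; have := hd0 l; positivity) (θt := ρ * J) (θb := ρ * J)
    (by positivity) (by positivity) (htR L hwL) ?_ ?_ (τ := τ) (η := 1 / 2) (γ := γ₀ * J)
    (by norm_num) (by norm_num) hτ0 ?_ ?_ ?_ ?_ ?_
  · -- the end
    have h1 : Pb (Pool.Agent.H49.Ent.cond F.p R True) (fun _ => True) ≤ 1 / 2 := by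
      refine le_trans (Pb_mono25 hqR.nonneg fun ω hω _ => ?_) key
      have h2 := hqRR ω hω
      rw [hR] at h2
      intro hall
      refine h2.2.2 ?_
      rw [hbox]
      intro x hx
      have h3 := hall x hx.1 hx.2.1 (fun i hi hi' => by
        rw [hy']
        exact hx.2.2 i hi hi')
      rw [hDe] at h3
      refine h3.trans ?_
      rw [hτ, ← mul_assoc]
      refine mul_le_mul_of_nonneg_right ?_ (by positivity)
      rw [← Real.exp_add, ← exp_p2]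
      refine Real.exp_le_exp.2 ?_
      have e1 : ((n : ℝ) + 1) * (γ₀ * J) ≤ ε / 8 * Real.log 2 * J := by
        calc ((n : ℝ) + 1) * (γ₀ * J) ≤ (r + 1) * (γ₀ * J) :=
              mul_le_mul_of_nonneg_right (by linarith) (by positivity)
          _ = (r + 1) * γ₀ * J := by ring
          _ ≤ _ := mul_le_mul_of_nonneg_right hγe.le hJ0
      have e2 : κ * Real.log 2 * J ≤ ε / 2 * Real.log 2 * J :=
        mul_le_mul_of_nonneg_right (mul_le_mul_of_nonneg_right (by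
          rw [hκ]
          exact min_le_left _ _) hl0.le) hJ0
      have e3 : 0 ≤ ε * Real.log 2 * J := by positivity
      linarith
    have h2 : Pb (Pool.Agent.H49.Ent.cond F.p R True) (fun _ => True) = 1 := by
      unfold Pb
      simp only [if_true]
      exact hqR.sum_one
    linarith
  · -- the labels
    intro i _ hi
    have h1 := hg i (Nat.zero_le _) (by omega)
    refine ⟨fun v => h1.deg _, fun v => h1.dep _, fun ω hω => hycl i hi ω (hRA ω hω),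
      fun ω hω => ?_, fun ω hω => ?_, fun ω hω => ?_⟩
    · rw [hy']
      exact h1.pos ω (hRA ω hω)
    · rw [hy']
      exact h1.vel ω (hRA ω hω)
    · rw [hy']
      exact h1.lip ω (hRA ω hω)
  · intro i _ hi
    refine Nat.floor_le_of_le ?_
    have h1 := (hnum i (by omega)).2.2.2
    calc (rd' i + e) * (J : ℝ) ≤ 1 * J := mul_le_mul_of_nonneg_right h1 hJ0
      _ = J := one_mul _
  · intro v
    rw [hD]
    exact (totalDegree_sub _ _).trans (max_le (h₁.deg _) (h₂.deg _))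
  · intro v b₁ b₂ hb hbb
    rw [hD]
    have e1 : ∀ i ∈ (range n).image c, b₁ (some i) = b₂ (some i) := by
      intro i hi
      obtain ⟨l, hl, rfl⟩ := mem_image.1 hi
      exact hbb l (mem_range.1 hl)
    show eval b₁ (G₁ v.2.1 - G₂ v.2.2) = eval b₂ (G₁ v.2.1 - G₂ v.2.2)
    rw [map_sub, map_sub, h₁.dep _ b₁ b₂ hb e1, h₂.dep _ b₁ b₂ hb e1]
  · -- the room
    intro l _ hl
    have hlr : l < r := by omega
    obtain ⟨h1, h2, -, -⟩ := hnum l hlr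
    obtain ⟨h3, -⟩ := hdef l hlr
    have h4 : (⌊(p l - e) * (J : ℝ)⌋₊ : ℝ) ≤ (p l - e) * J := Nat.floor_le (mul_nonneg h3 hJ0)
    have h5 : (⌊(E l + e) * (J : ℝ)⌋₊ : ℝ) ≤ (E l + e) * J :=
      Nat.floor_le (mul_nonneg (by linarith) hJ0)
    have h7 := mul_le_mul_of_nonneg_right h2 hJ0
    have h8 : (p l + E l + χ) * (J : ℝ) = (p l - e) * J + (E l + e) * J + (χ / 2 * J + χ / 2 * J) := by
      ring
    have h6 : ((⌊(p l - e) * (J : ℝ)⌋₊ + ⌊(E l + e) * (J : ℝ)⌋₊ + m + 2 + L : ℕ) : ℝ) ≤ J := by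
      push_cast
      linarith
    exact_mod_cast h6
  · -- the base
    have h1 : 0 ≤ ρ * J := by positivity
    have h2 : (((0 : ℕ) : ℝ)) * (((J : ℝ) - (⌊w * (J : ℝ)⌋₊ : ℕ)) * Real.log 2) - ρ * J ≤ 0 := by
      rw [Nat.cast_zero, zero_mul]
      linarith
    exact h2.trans (CH_nonneg hqR.nonneg _ _)
  · -- fullness
    intro l _ hl
    have hlr : l < r := by omega
    have h1 := hfR _ y y' (fun ω hω => hycl l hl ω (hRA ω hω)) l (Nat.zero_le _) hlr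
    refine le_trans ?_ h1
    rw [hθ]
    have h2 : (p l - e) * (J : ℝ) < ⌊(p l - e) * (J : ℝ)⌋₊ + 1 := Nat.lt_floor_add_one _
    have h4 := hdl l
    have h4J := mul_le_mul_of_nonneg_right h4 hJ0
    beta_reduce
    have h5 : ((J : ℝ) - ⌊(p l - e) * (J : ℝ)⌋₊) * Real.log 2 ≤
        (J - s l * J + d l * J + 1) * Real.log 2 := by
      refine mul_le_mul_of_nonneg_right ?_ hlog0.le
      have h6 : (s l - (p l - e)) * (J : ℝ) = s l * J - (p l - e) * J := by ring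
      linarith
    have hdJ : 0 ≤ d l * (J : ℝ) := mul_nonneg (hd0 l) hJ0
    have h6 : (d l * J + 1) * Real.log 2 ≤ d l * J + 1 :=
      mul_le_of_le_one_right (by linarith) hl1
    have h7 : ρ * J * Real.log 2 ≤ ρ * J := mul_le_of_le_one_right (by positivity) hl1
    have h8 : ((1 - s l) - ρ) * Real.log 2 * J = (J - s l * J) * Real.log 2 - ρ * J * Real.log 2 := by
      ring
    have h9 : (J - s l * J + d l * J + 1) * Real.log 2 =
      (J - s l * J) * Real.log 2 + (d l * J + 1) * Real.log 2 := by ring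
    have h10 : (d l + ρ) * (J : ℝ) = d l * J + ρ * J := by ring
    rw [h8]
    rw [h10]
    have h11 : 0 ≤ ρ * (J : ℝ) := by positivity
    linarith
  · -- the losses of the coordinates
    intro l _ hl
    have hlr : l < r := by omega
    rw [hθ]
    beta_reduce
    have hdl0 := hd0 l
    have h4 := hdC l hlr
    have h6 : C₂ * 6 ≤ γ₀ * J / 4 := by
      have : (24 : ℝ) * C₂ ≤ 24 * C₂ * (r + 1) :=
        le_mul_of_one_le_right (by positivity) (by linarith)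
      linarith
    have h7 := mul_le_mul_of_nonneg_right h4 hJ0
    have h8 := mul_le_mul_of_nonneg_right hρQ.le hJ0
    have hdρ : 0 ≤ (d l + ρ) * (J : ℝ) := mul_nonneg (by linarith) hJ0
    have h9 : Cm (n + 1) K * ((d l + ρ) * J + 1 + 5) * (8 ^ n / (1 / 2)) ≤
        Cm (r + 1) K * ((d l + ρ) * J + 1 + 5) * Q := by
      refine mul_le_mul (mul_le_mul_of_nonneg_right hCmn (by linarith)) hQn (by positivity)
        (mul_nonneg hCm0.le (by linarith))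
    refine h9.trans ?_
    have e1 : Cm (r + 1) K * ((d l + ρ) * J + 1 + 5) * Q = C₂ * d l * J + C₂ * ρ * J + C₂ * 6 := by
      rw [hC₂]
      ring
    rw [e1]
    have : 0 ≤ γ₀ * J := by positivity
    linarith
  · exact hlossT
  · exact hlossT
  · -- the room for the growth
    have h1 : γ₀ * J ≤ χ / 8 * J := mul_le_mul_of_nonneg_right hγχ hJ0
    have h2 : (χ / 2 * J - 1) * (1 / 2) ≤ L * Real.log 2 := by
      have h3 : 0 ≤ χ / 2 * J - 1 := by linarith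
      exact mul_le_mul hLge hl2 (by norm_num) (Nat.cast_nonneg L)
    linarith
  · -- the own points
    intro ω hω
    rw [hDe]
    rw [hR] at hω
    have h1 := hω.2.1
    rw [hgood] at h1
    refine h1 _ fun o => (xr_near F ω o).trans ?_
    have e1 : (1 : ℝ) / 2 ^ J ≤ 1 / 2 ^ ⌊u₁ * J⌋₊ := Pool.PB.inv_mono hu1J
    have e2 : (2 : ℝ) / 2 ^ ⌊u₁ * J⌋₊ = 2 * (1 / 2 ^ ⌊u₁ * J⌋₊) := by ring
    have e3 : (0 : ℝ) < 1 / 2 ^ ⌊u₁ * J⌋₊ := by positivity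
    rw [e2]
    linarith

end Pool.FLN19
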